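import Mathlib

/-! The geodesic map of a capped cylinder (coin billiard): definitions used in the statement.
Everything is lifted from the phase cylinder `ℝ/Lℤ × (0,π)` to the strip `ℝ × (0,π)`. -/

namespace Pool.Agent.MP_61130f_an

open Complex ComplexConjugate
open scoped Real

/-- `γ` is a closed strictly convex plane curve of class `C¹` and length `L`, parametrised
counterclockwise by arc length: it lies strictly to the left of each of its tangent lines,
except at the point of contact. -/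
structure IsOval (γ : ℝ → ℂ) (L : ℝ) : Prop where
  pos : 0 < L
  smooth : ContDiff ℝ 1 γ
  unit : ∀ s, ‖deriv γ s‖ = 1
  per : ∀ s, γ (s + L) = γ s
  convex : ∀ s u, s < u → u < s + L → 0 < ((γ u - γ s) * conj (deriv γ s)).im

/-- the phase strip: pairs `(s, α)` with `0 < α < π` -/
def Strip : Set (ℝ × ℝ) := {p | 0 < p.2 ∧ p.2 < π}

/-- the part `0 < α < a` of the strip -/
def Low (a : ℝ) : Set (ℝ × ℝ) := {p ∈ Strip | p.2 < a}

/-- `q = T₁ p` for the lifted billiard map: the chord from `γ s` to `γ s₁`, `s < s₁ < s + L`,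
makes the angle `α` with the tangent at `γ s` and the angle `α₁` with the tangent at `γ s₁`. -/
def Bil (γ : ℝ → ℂ) (L : ℝ) (p q : ℝ × ℝ) : Prop :=
  p ∈ Strip ∧ q ∈ Strip ∧ p.1 < q.1 ∧ q.1 < p.1 + L ∧ ∃ l : ℝ, 0 < l ∧
    γ q.1 - γ p.1 = l * exp (p.2 * I) * deriv γ p.1 ∧
    γ q.1 - γ p.1 = l * exp (-q.2 * I) * deriv γ q.1

/-- `q = T p` for the lifted map `T = T₂ ∘ T₁`, `T₂ (s, α) = (s + d cot α, α)`. -/
def Coin (γ : ℝ → ℂ) (L d : ℝ) (p q : ℝ × ℝ) : Prop :=
  ∃ r, Bil γ L p r ∧ q = (r.1 + d * Real.cot r.2, r.2)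

/-- `T p = p + (kL, 0)`. -/
def Fix (γ : ℝ → ℂ) (L d : ℝ) (k : ℕ) (p : ℝ × ℝ) : Prop := Coin γ L d p (p + (k * L, 0))

/-- `C` is the full preimage in the strip of a continuous simple closed curve of the phase
cylinder that is not contractible (winding number `n ≠ 0`) and is mapped into itself by `T`. -/
def IsLeaf (γ : ℝ → ℂ) (L d : ℝ) (C : Set (ℝ × ℝ)) : Prop :=
  ∃ (c : ℝ → ℝ × ℝ) (n : ℤ), Continuous c ∧ (∀ x, c x ∈ Strip) ∧ n ≠ 0 ∧
    (∀ x, c (x + 1) = c x + (n * L, 0)) ∧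
    (∀ (x y : ℝ) (m : ℤ), c x = c y + (m * L, 0) → ∃ j : ℤ, x = y + j) ∧
    C = {p | ∃ (x : ℝ) (m : ℤ), p = c x + (m * L, 0)} ∧
    ∀ p ∈ C, ∀ q, Coin γ L d p q → q ∈ C

end Pool.Agent.MP_61130f_an
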